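import Mathlib
import Pool.Agent.H79.SchattenNegMain
import Pool.Agent.H79.SchattenPosMain
import Pool.Agent.H79.HilbBasis

set_option autoImplicit false

namespace Pool.Agent.Results.MP_fc9cb6_an.SchattenSemi

open Pool.Agent.H79.Schatten Pool.Agent.H79.SemiAm

/-- The Schatten class `S_p` of an infinite-dimensional separable complex Hilbert space, `1 ≤ p < ∞`,
is approximately semi-amenable if and only if `p = 1`. -/
theorem result (H : Type) [NormedAddCommGroup H] [InnerProductSpace ℂ H] [CompleteSpace H]
    [TopologicalSpace.SeparableSpace H] (hH : ¬ FiniteDimensional ℂ H) (p : ℝ) (hp : 1 ≤ p) :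
    ApproxSemiAmenable (schatten H p hp) (fun a => schattenNorm p (a : H →L[ℂ] H)) ↔ p = 1 := by
  obtain ⟨b⟩ := Pool.Agent.H79.exists_hilbertBasis_nat H hH
  constructor
  · intro h
    by_contra hne
    exact not_asa b hp (lt_of_le_of_ne hp (Ne.symm hne)) h
  · intro h
    subst h
    exact asa_one b hp

end Pool.Agent.Results.MP_fc9cb6_an.SchattenSemi
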